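import Mathlib

/-!
# Nilsequences, integral combinations of nilsequences, multiple correlation sequences

The definitions used by the hand-in `MP_b4ed41_an.NotIntegralOfNilsequences`.
-/

set_option autoImplicit false

namespace Pool.Agent.U50.Nilseq

open MeasureTheory

/-- The operation `(x * y)_i = x_i + y_i + P_i(x, y)` on `ℝ^d`. -/
noncomputable def coordMul {d : ℕ} (P : Fin d → MvPolynomial (Fin d ⊕ Fin d) ℝ)
    (x y : Fin d → ℝ) : Fin d → ℝ :=
  fun i => x i + y i + MvPolynomial.eval (Sum.elim x y) (P i)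

/-- A connected simply connected nilpotent Lie group `G` with a lattice `Γ`, in Mal'cev
coordinates of the second kind: `G = ℝ^d` with the product `(x * y)_i = x_i + y_i + P_i(x, y)`,
where the polynomial `P_i` involves only the coordinates `< i` of `x` and of `y`, and `Γ = ℤ^d`
(closed under the product). -/
structure Nilmanifold (d : ℕ) where
  P : Fin d → MvPolynomial (Fin d ⊕ Fin d) ℝ
  triangular : ∀ i, ∀ v ∈ (P i).vars, ∃ j : Fin d, j < i ∧ (v = Sum.inl j ∨ v = Sum.inr j)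
  mul_assoc : ∀ x y z, coordMul P (coordMul P x y) z = coordMul P x (coordMul P y z)
  one_mul : ∀ x, coordMul P 0 x = x
  mul_one : ∀ x, coordMul P x 0 = x
  lattice : ∀ m n : Fin d → ℤ, ∃ k : Fin d → ℤ,
    coordMul P (fun i => (m i : ℝ)) (fun i => (n i : ℝ)) = fun i => (k i : ℝ)

/-- `F` is the lift to `G = ℝ^d` of a continuous function on the nilmanifold `G / Γ`. -/
def Nilmanifold.IsContinuousFunction {d : ℕ} (G : Nilmanifold d) (F : (Fin d → ℝ) → ℂ) : Prop :=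
  Continuous F ∧
    ∀ (x : Fin d → ℝ) (m : Fin d → ℤ), F (coordMul G.P x (fun i => (m i : ℝ))) = F x

/-- Basic nilsequences in `ℓ` variables: `n ↦ F (g n Γ)`, `n ∈ ℤ^ℓ`, with a continuous function
`F` on a nilmanifold `G / Γ` and a polynomial sequence `g` in `G`, i.e. a map `ℤ^ℓ → G` whose
Mal'cev coordinates are real polynomials in `n`.  The sequences
`F (b_1 ^ n_1 ⋯ b_ℓ ^ n_ℓ a Γ)` are of this kind: theorem `isBasic_of_powers` in
`Pool/Agent/U50/MC/Final.lean`. -/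
def IsBasicNilsequence (ℓ : ℕ) (N : (Fin ℓ → ℤ) → ℂ) : Prop :=
  ∃ (d : ℕ) (G : Nilmanifold d) (F : (Fin d → ℝ) → ℂ) (g : Fin d → MvPolynomial (Fin ℓ) ℝ),
    G.IsContinuousFunction F ∧
      ∀ n, N n = F (fun k => MvPolynomial.eval (fun i => (n i : ℝ)) (g k))

/-- Nilsequences in `ℓ` variables: uniform limits of basic nilsequences (no bound on the step
is imposed). -/
def IsNilsequence (ℓ : ℕ) (N : (Fin ℓ → ℤ) → ℂ) : Prop :=
  ∀ ε : ℝ, 0 < ε → ∃ N', IsBasicNilsequence ℓ N' ∧ ∀ n, ‖N n - N' n‖ ≤ ε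

/-- `C` is, up to `ε` in the supremum norm, an integral combination of nilsequences:
`|C n - ∫ N_y n dσ(y)| ≤ ε` for all `n`, for some finite measure space `(Y, ν)`, some complex
measure `σ = h ν` with `|h| ≤ 1` (every complex measure of bounded variation is of this form,
with `ν = |σ|`), and nilsequences `N_y` in `ℓ` variables such that `y ↦ N_y n` is measurable and
`sup_n |N_y n| ≤ D y` with `D` integrable. -/
def IsIntegralCombination (ℓ : ℕ) (ε : ℝ) (C : (Fin ℓ → ℤ) → ℂ) : Prop :=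
  ∃ (Y : Type) (_ : MeasurableSpace Y) (ν : Measure Y) (_ : IsFiniteMeasure ν)
    (h : Y → ℂ) (D : Y → ℝ) (N : Y → (Fin ℓ → ℤ) → ℂ),
    AEStronglyMeasurable h ν ∧ (∀ y, ‖h y‖ ≤ 1) ∧ Integrable D ν ∧
    (∀ y, IsNilsequence ℓ (N y)) ∧ (∀ n, AEStronglyMeasurable (fun y => N y n) ν) ∧
    (∀ y n, ‖N y n‖ ≤ D y) ∧
    ∀ n, ‖C n - ∫ y, N y n * h y ∂ν‖ ≤ ε

/-- The multiple correlation sequence
`C n = ∫ f_0 · (f_1 ∘ T_1 ^ n_1) ⋯ (f_ℓ ∘ T_ℓ ^ n_ℓ) dμ`, `n ∈ ℤ^ℓ`. -/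
noncomputable def correlation {Ω : Type} [MeasurableSpace Ω] (μ : Measure Ω) {ℓ : ℕ}
    (T : Fin ℓ → Equiv.Perm Ω) (f : Fin (ℓ + 1) → Ω → ℂ) (n : Fin ℓ → ℤ) : ℂ :=
  ∫ x, f 0 x * ∏ i : Fin ℓ, f i.succ ((T i ^ n i) x) ∂μ

end Pool.Agent.U50.Nilseq
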