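import Pool.Agent.U50.MC.Pow
import Pool.Agent.U50.MC.Nilseq

/-!
# Project MC (MP_b4ed41_an): the result in terms of the definitions of `Nilseq.lean`; the
sequences `F (b_1 ^ n_1 ⋯ b_ℓ ^ n_ℓ a Γ)` are basic nilsequences; examples of nilmanifolds.
-/

set_option autoImplicit false

namespace Pool.Agent.U50.Nilseq

open MeasureTheory Pool.Agent.U50.MC

/-- The same group as an object of `Stm.lean`. -/
noncomputable def Nilmanifold.toNil {d : ℕ} (G : Nilmanifold d) : Nil d where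
  P := G.P
  tri := G.triangular
  assoc := G.mul_assoc
  zero_op := G.one_mul
  op_zero := G.mul_one
  int_op := G.lattice

/-- Conversely. -/
noncomputable def ofNil {d : ℕ} (G : Nil d) : Nilmanifold d where
  P := G.P
  triangular := G.tri
  mul_assoc := G.assoc
  one_mul := G.zero_op
  mul_one := G.op_zero
  lattice := G.int_op

theorem basic_iff {ℓ : ℕ} {N : (Fin ℓ → ℤ) → ℂ} :
    IsBasicNilsequence ℓ N ↔ MC2.IsBasicNil ℓ N := by
  constructor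
  · rintro ⟨d, G, F, g, hF, hN⟩
    exact ⟨d, G.toNil, F, g, hF, hN⟩
  · rintro ⟨d, G, F, g, hF, hN⟩
    exact ⟨d, ofNil G, F, g, hF, hN⟩

theorem isNil_of {ℓ : ℕ} {N : (Fin ℓ → ℤ) → ℂ} (h : IsNilsequence ℓ N) : MC2.IsNil ℓ N := by
  intro ε hε
  obtain ⟨N', h1, h2⟩ := h ε hε
  exact ⟨N', basic_iff.1 h1, h2⟩

/-- The sequences `F (b_1 ^ n_1 ⋯ b_ℓ ^ n_ℓ a Γ)` (`β t m = b_t ^ m`, `m ∈ ℤ`) are basic
nilsequences. -/
theorem isBasic_of_powers {ℓ d : ℕ} (G : Nilmanifold d) (F : (Fin d → ℝ) → ℂ)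
    (hF : G.IsContinuousFunction F) (β : Fin ℓ → ℤ → (Fin d → ℝ))
    (hβ : ∀ t m n, β t (m + n) = coordMul G.P (β t m) (β t n)) (a : Fin d → ℝ) :
    IsBasicNilsequence ℓ
      (fun n => F ((List.ofFn fun t => β t (n t)).foldr (coordMul G.P) a)) :=
  basic_iff.2 (MC2.isBasicNil_of_pow G.toNil F hF β hβ a)

/-- Example: the torus `ℝ^d / ℤ^d`. -/
noncomputable def torus (d : ℕ) : Nilmanifold d := ofNil (MC2.torus d)

/-- Example: the Heisenberg nilmanifold, `(x * y)_2 = x_2 + y_2 + x_0 y_1`. -/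
noncomputable def heisenberg : Nilmanifold 3 := ofNil MC2.heisenberg

theorem main (ℓ : ℕ) (hℓ : 2 ≤ ℓ) :
    ∃ (Ω : Type) (_ : MeasurableSpace Ω) (μ : Measure Ω) (_ : IsProbabilityMeasure μ)
      (T : Fin ℓ → Equiv.Perm Ω) (f : Fin (ℓ + 1) → Ω → ℂ),
      (∀ i, MeasurePreserving (T i) μ μ) ∧ (∀ i, MeasurePreserving (T i).symm μ μ) ∧
      (∀ i j, T i * T j = T j * T i) ∧
      (∀ i, Measurable (f i)) ∧ (∀ i x, ‖f i x‖ ≤ 1) ∧
      ¬ IsIntegralCombination ℓ (1 / 4) (correlation μ T f) := by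
  obtain ⟨Ω, mΩ, μ, hμ, T, f, h1, h2, h3, h4, h5, h6⟩ := MC2.main ℓ hℓ
  refine ⟨Ω, mΩ, μ, hμ, T, f, h1, h2, h3, h4, h5, fun hC => h6 ?_⟩
  obtain ⟨Y, mY, ν, hν, h, D, N, a1, a2, a3, a4, a5, a6, a7⟩ := hC
  exact ⟨Y, mY, ν, hν, h, D, N, a1, a2, a3, fun y => isNil_of (a4 y), a5, a6, a7⟩

end Pool.Agent.U50.Nilseq
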