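import Mathlib

/-!
# MP_b4ed41_an: a slip in the problem file

The file defines basic nilsequences with `F` only Riemann integrable on the nilmanifold.  Then
every bounded sequence on `ℤ^ℓ` is a basic 1-step nilsequence in `ℓ` variables: on the torus
`ℝ^(ℓ+1) / ℤ^(ℓ+1)` take `z = 0`, `b_i = √2 e_i` for `i ≥ 1`, and `F` carried by the closed null
subtorus `x_0 = 0`, which contains the whole orbit.  `F` is bounded, and continuous off the
closed null set `x_0 ∈ ℤ`, hence Riemann integrable.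
-/

set_option autoImplicit false

namespace Pool.Agent.U50.Nilseq

open MeasureTheory

theorem riemann_integrable_is_trivial (ℓ : ℕ) (C : (Fin ℓ → ℤ) → ℂ) (B : ℝ)
    (hB : ∀ n, ‖C n‖ ≤ B) :
    ∃ F : (Fin (ℓ + 1) → ℝ) → ℂ, (∀ x, ‖F x‖ ≤ B) ∧
      (∀ (x : Fin (ℓ + 1) → ℝ) (m : Fin (ℓ + 1) → ℤ), F (x + fun i => (m i : ℝ)) = F x) ∧
      (∀ x, x 0 ∉ Set.range ((↑) : ℤ → ℝ) → ContinuousAt F x) ∧
      IsClosed {x : Fin (ℓ + 1) → ℝ | x 0 ∈ Set.range ((↑) : ℤ → ℝ)} ∧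
      volume {x : Fin (ℓ + 1) → ℝ | x 0 ∈ Set.range ((↑) : ℤ → ℝ)} = 0 ∧
      ∀ n : Fin ℓ → ℤ, F (Fin.cons 0 fun i => (n i : ℝ) * √2) = C n := by
  classical
  have hB0 : 0 ≤ B := (norm_nonneg _).trans (hB 0)
  let P : (Fin (ℓ + 1) → ℝ) → (Fin ℓ → ℤ) → Prop := fun x n =>
    x 0 ∈ Set.range ((↑) : ℤ → ℝ) ∧ ∀ i : Fin ℓ, ∃ k : ℤ, x i.succ = (n i : ℝ) * √2 + k
  have huniq : ∀ x n n', P x n → P x n' → n = n' := by
    rintro x n n' ⟨_, h1⟩ ⟨_, h2⟩
    funext i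
    obtain ⟨k, hk⟩ := h1 i
    obtain ⟨k', hk'⟩ := h2 i
    by_contra hne
    have hne' : n i - n' i ≠ 0 := sub_ne_zero.2 hne
    have h3 : ((n i - n' i : ℤ) : ℝ) * √2 = ((k' - k : ℤ) : ℝ) := by
      push_cast; linarith
    exact (irrational_sqrt_two.intCast_mul hne').ne_int _ h3
  have hper : ∀ x (m : Fin (ℓ + 1) → ℤ) n, P (x + fun i => (m i : ℝ)) n ↔ P x n := by
    intro x m n
    constructor
    · rintro ⟨⟨a, ha⟩, h⟩
      refine ⟨⟨a - m 0, ?_⟩, fun i => ?_⟩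
      · have ha' : (a : ℝ) = x 0 + m 0 := ha
        push_cast; linarith
      · obtain ⟨k, hk⟩ := h i
        refine ⟨k - m i.succ, ?_⟩
        have hk' : x i.succ + m i.succ = (n i : ℝ) * √2 + k := hk
        push_cast; linarith
    · rintro ⟨⟨a, ha⟩, h⟩
      refine ⟨⟨a + m 0, ?_⟩, fun i => ?_⟩
      · show ((a + m 0 : ℤ) : ℝ) = x 0 + m 0
        push_cast; linarith
      · obtain ⟨k, hk⟩ := h i
        refine ⟨k + m i.succ, ?_⟩
        show x i.succ + (m i.succ : ℝ) = _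
        push_cast; linarith
  refine ⟨fun x => if h : ∃ n, P x n then C h.choose else 0, ?_, ?_, ?_, ?_, ?_, ?_⟩
  · intro x
    by_cases h : ∃ n, P x n
    · simp only [dif_pos h]; exact hB _
    · simp only [dif_neg h, norm_zero]; exact hB0
  · intro x m
    by_cases h : ∃ n, P x n
    · have h' : ∃ n, P (x + fun i => (m i : ℝ)) n :=
        ⟨h.choose, (hper x m _).2 h.choose_spec⟩
      simp only [dif_pos h, dif_pos h']
      congr 1
      exact huniq x _ _ ((hper x m _).1 h'.choose_spec) h.choose_spec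
    · have h' : ¬ ∃ n, P (x + fun i => (m i : ℝ)) n := by
        rintro ⟨n, hn⟩; exact h ⟨n, (hper x m n).1 hn⟩
      simp only [dif_neg h, dif_neg h']
  · intro x hx
    have hcl : IsClosed {y : Fin (ℓ + 1) → ℝ | y 0 ∈ Set.range ((↑) : ℤ → ℝ)} :=
      Int.isClosedEmbedding_coe_real.isClosed_range.preimage (continuous_apply 0)
    have hopen : IsOpen {y : Fin (ℓ + 1) → ℝ | y 0 ∉ Set.range ((↑) : ℤ → ℝ)} :=
      hcl.isOpen_compl
    have hev : (fun x => if h : ∃ n, P x n then C h.choose else (0 : ℂ)) =ᶠ[nhds x]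
        fun _ => (0 : ℂ) := by
      filter_upwards [hopen.mem_nhds hx] with y hy
      have h' : ¬ ∃ n, P y n := by
        rintro ⟨n, hn⟩; exact hy hn.1
      simp only [dif_neg h']
    exact (continuousAt_const (y := (0 : ℂ))).congr hev.symm
  · exact Int.isClosedEmbedding_coe_real.isClosed_range.preimage (continuous_apply 0)
  · have e : {x : Fin (ℓ + 1) → ℝ | x 0 ∈ Set.range ((↑) : ℤ → ℝ)} =
        ⋃ k : ℤ, {x | x 0 = (k : ℝ)} := by
      ext x
      simp only [Set.mem_ofPred_eq, Set.mem_range, Set.mem_iUnion]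
      exact ⟨fun ⟨k, hk⟩ => ⟨k, hk.symm⟩, fun ⟨k, hk⟩ => ⟨k, hk.symm⟩⟩
    rw [e, measure_iUnion_null_iff]
    intro k
    rw [volume_pi]
    exact Measure.pi_hyperplane (fun _ : Fin (ℓ + 1) => (volume : Measure ℝ)) 0 (k : ℝ)
  · intro n
    have hp : P (Fin.cons 0 fun i => (n i : ℝ) * √2) n := by
      refine ⟨⟨0, by simp⟩, fun i => ⟨0, by simp⟩⟩
    have h : ∃ n', P (Fin.cons 0 fun i => (n i : ℝ) * √2) n' := ⟨n, hp⟩
    simp only [dif_pos h]
    congr 1
    exact huniq _ _ _ h.choose_spec hp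

end Pool.Agent.U50.Nilseq
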