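import Pool.Agent.U50.MC.Stm

/-!
# Project MC (MP_b4ed41_an): assembly
-/

set_option autoImplicit false

namespace Pool.Agent.U50.MC

open MeasureTheory Filter Topology

/-- the number of terms -/
noncomputable def ZL (L : ℕ) : ℝ := 2 ^ (L * L) * (L * L)

lemma ZL_nonneg (L : ℕ) : 0 ≤ ZL L := by unfold ZL; positivity

lemma ZL_pos (L : ℕ) (h : 1 ≤ L) : 0 < ZL L := by
  have : (0:ℝ) < L := by exact_mod_cast h
  unfold ZL; positivity

lemma norm_sg (b : Bool) : ‖(sg b : ℂ)‖ = 1 := by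
  cases b <;> simp [sg]

lemma card_pat (L : ℕ) : (Fintype.card (Fin L → Fin L → Bool) : ℝ) = 2 ^ (L * L) := by
  simp [pow_mul]

lemma sum_bound (L : ℕ) (a : (Fin L → Fin L → Bool) → Fin L → Fin L → ℂ) (e : ℝ)
    (h : ∀ p i j, ‖a p i j‖ ≤ e) :
    ‖∑ p, ∑ i, ∑ j, (sg (p i j) : ℂ) * a p i j‖ ≤ e * ZL L := by
  have h1 : ‖∑ p, ∑ i, ∑ j, (sg (p i j) : ℂ) * a p i j‖ ≤
      ∑ p : Fin L → Fin L → Bool, ∑ i : Fin L, ∑ j : Fin L, e := by
    refine (norm_sum_le _ _).trans (Finset.sum_le_sum fun p _ => ?_)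
    refine (norm_sum_le _ _).trans (Finset.sum_le_sum fun i _ => ?_)
    refine (norm_sum_le _ _).trans (Finset.sum_le_sum fun j _ => ?_)
    rw [norm_mul, norm_sg, one_mul]; exact h p i j
  refine h1.trans (le_of_eq ?_)
  simp only [Finset.sum_const, Finset.card_univ, nsmul_eq_mul, card_pat, Fintype.card_fin, ZL]
  ring

/-- the test functional -/
noncomputable def phi (R : (L : ℕ) → (Fin L → Fin L → Bool) → ℕ) (L : ℕ)
    (N : (Fin 2 → ℤ) → ℂ) : ℂ :=
  ∑ p : Fin L → Fin L → Bool, ∑ i : Fin L, ∑ j : Fin L,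
    (sg (p i j) : ℂ) * N (pt (R L p) L i j)

lemma phi_nil (hC : S_CHER) (hP : S_PAT) (R : (L : ℕ) → (Fin L → Fin L → Bool) → ℕ)
    (N : (Fin 2 → ℤ) → ℂ) (hN : IsNil 2 N) (δ : ℝ) (hδ : 0 < δ) :
    ∃ L0, ∀ L ≥ L0, ‖phi R L N‖ ≤ δ * ZL L := by
  obtain ⟨N', hN', hNN⟩ := hN (δ / 3) (by positivity)
  obtain ⟨B, hB⟩ := hP N' hN'
  obtain ⟨A, hA⟩ := hB (δ / 3) (by positivity)
  obtain ⟨L0, hL0⟩ := hC A B (δ / 3) (by positivity)
  refine ⟨max L0 1, fun L hL => ?_⟩
  obtain ⟨Ys, hc, hb, hR⟩ := hA L (le_trans (le_max_right _ _) hL)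
  choose Y hY hYN using fun p : Fin L → Fin L → Bool => hR (R L p)
  have h3 := hL0 L (le_trans (le_max_left _ _) hL) Ys hc hb Y hY
  have h1 := sum_bound L (fun p i j => N (pt (R L p) L i j) - N' (pt (R L p) L i j)) (δ / 3)
    (fun p i j => hNN _)
  have h2 := sum_bound L (fun p i j => N' (pt (R L p) L i j) - Y p i j) (δ / 3)
    (fun p i j => hYN p i j)
  have e : phi R L N =
      (∑ p : Fin L → Fin L → Bool, ∑ i : Fin L, ∑ j : Fin L,
        (sg (p i j) : ℂ) * (N (pt (R L p) L i j) - N' (pt (R L p) L i j))) +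
      (∑ p : Fin L → Fin L → Bool, ∑ i : Fin L, ∑ j : Fin L,
        (sg (p i j) : ℂ) * (N' (pt (R L p) L i j) - Y p i j)) +
      ∑ p : Fin L → Fin L → Bool, ∑ i : Fin L, ∑ j : Fin L, (sg (p i j) : ℂ) * Y p i j := by
    unfold phi
    simp only [← Finset.sum_add_distrib]
    refine Finset.sum_congr rfl fun p _ => Finset.sum_congr rfl fun i _ =>
      Finset.sum_congr rfl fun j _ => ?_
    ring
  rw [e]
  refine (norm_add₃_le).trans ?_
  have h3' : ‖∑ p : Fin L → Fin L → Bool, ∑ i, ∑ j, (sg (p i j) : ℂ) * Y p i j‖ ≤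
      δ / 3 * ZL L := h3
  linarith

lemma om_zero : om 0 = 1 := by simp [om]

lemma om_two_re : (om 2).re = -1 / 2 := by
  have h2 : (2 : ZMod 3).val = 2 := rfl
  rw [om, h2, ← Complex.exp_nat_mul]
  have e : ((2:ℕ):ℂ) * (2 * Real.pi * Complex.I / 3) = ((4 * Real.pi / 3 : ℝ) : ℂ) * Complex.I := by
    push_cast; ring
  rw [e, Complex.exp_ofReal_mul_I_re]
  have e2 : 4 * Real.pi / 3 = Real.pi + Real.pi / 3 := by ring
  rw [e2, Real.cos_add, Real.cos_pi, Real.sin_pi, Real.cos_pi_div_three]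
  norm_num

lemma re_target (b : Bool) : 1 / 2 ≤ ((sg b : ℂ) * om (2 * (if b then 1 else 0))).re := by
  cases b
  · simp [sg, om_zero]; norm_num
  · have : (om 2).re = -1 / 2 := om_two_re
    simp [sg, this]; norm_num

lemma om_norm (z : ZMod 3) : ‖om z‖ = 1 := by
  have e : (2 * Real.pi * Complex.I / 3 : ℂ) = ((2 * Real.pi / 3 : ℝ) : ℂ) * Complex.I := by
    push_cast; ring
  rw [om, norm_pow, e, Complex.norm_exp_ofReal_mul_I, one_pow]

theorem t_SYS (hD : S_DIG) (hC : S_COC) (hK : S_SKP) : S_SYS := by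
  obtain ⟨Ω, mΩ, μ, hμ, T, dig, hT, hT', hdm, hbad, hadd, hfin⟩ := hD
  intro W hr hc hu
  obtain ⟨c, hcm, hcc⟩ := hC Ω mΩ μ hμ T dig hT hdm hadd hfin W hr hc hu
  obtain ⟨X, mX, ρ, hρ, S, f, hS, hS', hf, hf1, hint⟩ := hK Ω mΩ μ hμ T c hT hT' hcm
  refine ⟨X, mX, ρ, hρ, S, f, hS, hS', hf, hf1, fun i j hij => ?_⟩
  rw [hint (nn i j)]
  have hpm : ∀ t : ℕ, Measurable (⇑(T ^ t)) := by
    intro t
    induction t with
    | zero => exact measurable_id
    | succ n ih =>
      have : (⇑(T ^ (n + 1)) : Ω → Ω) = (⇑(T ^ n)) ∘ (⇑T) := by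
        rw [pow_succ]; rfl
      rw [this]; exact ih.comp hT.measurable
  set u : Ω → ZMod 3 := fun x => (∑ t ∈ Finset.range (nn i j), c ((T ^ t) x)) +
    ∑ t ∈ Finset.range (2 * nn i j), c ((T ^ t) x) with hu'
  have hadd2 : ∀ a b : Ω → ZMod 3, Measurable a → Measurable b →
      Measurable (fun x => a x + b x) := fun a b ha hb =>
    (measurable_of_finite (fun p : ZMod 3 × ZMod 3 => p.1 + p.2)).comp (ha.prodMk hb)
  have hsm : ∀ n : ℕ, Measurable (fun x => ∑ t ∈ Finset.range n, c ((T ^ t) x)) := by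
    intro n
    induction n with
    | zero => simp only [Finset.range_zero, Finset.sum_empty]; exact measurable_const
    | succ n ih =>
      simp only [Finset.sum_range_succ]
      exact hadd2 _ _ ih (hcm.comp (hpm n))
  have hum : Measurable u := hadd2 _ _ (hsm _) (hsm _)
  have hom : Measurable om := measurable_of_finite _
  set bad : Set Ω := {x | 62 ≤ dig i x} ∪ {x | 62 ≤ dig j x} with hbd
  have hbm : MeasurableSet bad :=
    ((hdm i) (measurableSet_Ici : MeasurableSet (Set.Ici 62))).union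
      ((hdm j) (measurableSet_Ici : MeasurableSet (Set.Ici 62)))
  have hbmu : μ.real bad ≤ 1 / 16 := by
    have h1 : μ bad ≤ ENNReal.ofReal (1 / 16) := by
      refine (measure_union_le _ _).trans ((add_le_add (hbad i) (hbad j)).trans (le_of_eq ?_))
      rw [← ENNReal.ofReal_add (by norm_num) (by norm_num)]
      norm_num
    have := ENNReal.toReal_mono ENNReal.ofReal_ne_top h1
    rw [ENNReal.toReal_ofReal (by norm_num)] at this
    exact this
  have hcon : om (2 * W i j) = ∫ _x, om (2 * W i j) ∂μ := by simp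
  have hi1 : Integrable (fun x => om (u x)) μ := by
    refine Integrable.of_bound (C := 1) ((hom.comp hum).aestronglyMeasurable)
      (Eventually.of_forall fun x => le_of_eq (om_norm _))
  have hi2 : Integrable (fun _ : Ω => om (2 * W i j)) μ := integrable_const _
  rw [hcon, ← integral_sub hi1 hi2]
  have hle : ∀ᵐ x ∂μ, ‖om (u x) - om (2 * W i j)‖ ≤ bad.indicator (fun _ => (2:ℝ)) x := by
    filter_upwards [hcc] with x hx
    by_cases hxb : x ∈ bad
    · rw [Set.indicator_of_mem hxb]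
      refine (norm_sub_le _ _).trans ?_
      rw [om_norm, om_norm]; norm_num
    · rw [Set.indicator_of_notMem hxb]
      have h1 : dig i x < 62 := by
        by_contra h; exact hxb (Or.inl (not_lt.1 h))
      have h2 : dig j x < 62 := by
        by_contra h; exact hxb (Or.inr (not_lt.1 h))
      have h3 : u x = 2 * W i j := hx i j hij h1 h2
      rw [h3, sub_self, norm_zero]
  have hib : Integrable (bad.indicator (fun _ => (2:ℝ))) μ :=
    (integrable_const _).indicator hbm
  refine (norm_integral_le_integral_norm _).trans ?_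
  refine (integral_mono_ae (hi1.sub hi2).norm hib hle).trans ?_
  rw [integral_indicator_const _ hbm, smul_eq_mul]
  linarith

/-- Along the points `(n, n)`, `n = 64^a + 64^b`, the function `C` is not an integral
combination of nilsequences if it has the prescribed correlations with the signs. -/
theorem no_rep (hC' : S_CHER) (hP : S_PAT) (R : (L : ℕ) → (Fin L → Fin L → Bool) → ℕ)
    (C : (Fin 2 → ℤ) → ℂ)
    (hval : ∀ (L : ℕ) (p : Fin L → Fin L → Bool) (i j : Fin L),
      3 / 8 ≤ ((sg (p i j) : ℂ) * C (pt (R L p) L i j)).re)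
    {Y : Type} [MeasurableSpace Y] (ν : Measure Y) [IsFiniteMeasure ν]
    (h : Y → ℂ) (g : Y → ℝ) (N : Y → (Fin 2 → ℤ) → ℂ)
    (hh : AEStronglyMeasurable h ν) (hh1 : ∀ y, ‖h y‖ ≤ 1) (hg : Integrable g ν)
    (hN : ∀ y, IsNil 2 (N y)) (hNm : ∀ n, AEStronglyMeasurable (fun y => N y n) ν)
    (hNg : ∀ y n, ‖N y n‖ ≤ g y)
    (happ : ∀ m : ℤ, ‖C (fun _ => m) - ∫ y, N y (fun _ => m) * h y ∂ν‖ ≤ 1 / 4) : False := by
  -- the same for the integral
  have hint2 : ∀ n, Integrable (fun y => N y n * h y) ν := by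
    intro n
    refine Integrable.mono' hg ((hNm n).mul hh) (Eventually.of_forall fun y => ?_)
    rw [norm_mul]
    calc ‖N y n‖ * ‖h y‖ ≤ ‖N y n‖ * 1 :=
          mul_le_mul_of_nonneg_left (hh1 y) (norm_nonneg _)
      _ ≤ g y := by rw [mul_one]; exact hNg y n
  have hval2 : ∀ (L : ℕ) (p : Fin L → Fin L → Bool) (i j : Fin L),
      1 / 8 ≤ ((sg (p i j) : ℂ) * ∫ y, N y (pt (R L p) L i j) * h y ∂ν).re := by
    intro L p i j
    have h2 := hval L p i j
    have h3 : ‖(sg (p i j) : ℂ) * C (pt (R L p) L i j) -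
        (sg (p i j) : ℂ) * ∫ y, N y (pt (R L p) L i j) * h y ∂ν‖ ≤ 1 / 4 := by
      rw [← mul_sub, norm_mul, norm_sg, one_mul]; exact happ (nn (R L p + i) (R L p + L + j))
    have h4 := Complex.abs_re_le_norm ((sg (p i j) : ℂ) * C (pt (R L p) L i j) -
        (sg (p i j) : ℂ) * ∫ y, N y (pt (R L p) L i j) * h y ∂ν)
    rw [Complex.sub_re] at h4
    have h5 := abs_le.1 (h4.trans h3)
    linarith [h5.2]
  -- integrate the test functional
  have hphi : ∀ L, ∫ y, phi R L (N y) * h y ∂ν =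
      ∑ p : Fin L → Fin L → Bool, ∑ i : Fin L, ∑ j : Fin L,
        (sg (p i j) : ℂ) * ∫ y, N y (pt (R L p) L i j) * h y ∂ν := by
    intro L
    have e : ∀ y, phi R L (N y) * h y = ∑ p : Fin L → Fin L → Bool, ∑ i : Fin L, ∑ j : Fin L,
        (sg (p i j) : ℂ) * (N y (pt (R L p) L i j) * h y) := by
      intro y
      unfold phi
      simp only [Finset.sum_mul, mul_assoc]
    simp only [e]
    rw [integral_finsetSum _ (fun p _ => integrable_finsetSum _ fun i _ =>
      integrable_finsetSum _ fun j _ => (hint2 _).const_mul _)]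
    refine Finset.sum_congr rfl fun p _ => ?_
    rw [integral_finsetSum _ (fun i _ => integrable_finsetSum _ fun j _ =>
      (hint2 _).const_mul _)]
    refine Finset.sum_congr rfl fun i _ => ?_
    rw [integral_finsetSum _ (fun j _ => (hint2 _).const_mul _)]
    refine Finset.sum_congr rfl fun j _ => ?_
    rw [integral_const_mul]
  have hlow : ∀ L, 1 / 8 * ZL L ≤ ‖∫ y, phi R L (N y) * h y ∂ν‖ := by
    intro L
    refine le_trans ?_ (Complex.re_le_norm _)
    rw [hphi L]
    simp only [Complex.re_sum]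
    have : 1 / 8 * ZL L = ∑ p : Fin L → Fin L → Bool, ∑ i : Fin L, ∑ j : Fin L, (1 / 8 : ℝ) := by
      simp only [Finset.sum_const, Finset.card_univ, nsmul_eq_mul, card_pat, Fintype.card_fin, ZL]
      ring
    rw [this]
    exact Finset.sum_le_sum fun p _ => Finset.sum_le_sum fun i _ =>
      Finset.sum_le_sum fun j _ => hval2 L p i j
  -- dominated convergence
  have hlim : Tendsto (fun L : ℕ => ∫ y, phi R L (N y) * h y / (ZL L : ℂ) ∂ν) atTop (𝓝 0) := by
    have h0 : (0:ℂ) = ∫ y, (0:ℂ) ∂ν := by simp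
    rw [h0]
    refine tendsto_integral_of_dominated_convergence g ?_ hg ?_ ?_
    · intro L
      have hm : AEStronglyMeasurable (fun y => phi R L (N y)) ν := by
        unfold phi
        exact Finset.aestronglyMeasurable_fun_sum _ fun p _ =>
          Finset.aestronglyMeasurable_fun_sum _ fun i _ =>
          Finset.aestronglyMeasurable_fun_sum _ fun j _ => (hNm _).const_mul _
      simp only [div_eq_mul_inv]
      exact (hm.mul hh).mul_const _
    · intro L
      refine Eventually.of_forall fun y => ?_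
      have h1 : ‖phi R L (N y)‖ ≤ g y * ZL L := sum_bound L _ (g y) fun p i j => hNg y _
      have hg0 : 0 ≤ g y := le_trans (norm_nonneg _) (hNg y (fun _ => 0))
      rw [norm_div, norm_mul]
      have hz : ‖(ZL L : ℂ)‖ = ZL L := by
        rw [Complex.norm_real, Real.norm_eq_abs, abs_of_nonneg (ZL_nonneg L)]
      rw [hz]
      refine div_le_of_le_mul₀ (ZL_nonneg L) hg0 ?_
      calc ‖phi R L (N y)‖ * ‖h y‖ ≤ ‖phi R L (N y)‖ * 1 :=
            mul_le_mul_of_nonneg_left (hh1 y) (norm_nonneg _)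
        _ ≤ g y * ZL L := by rw [mul_one]; exact h1
    · refine Eventually.of_forall fun y => ?_
      rw [Metric.tendsto_atTop]
      intro δ hδ
      obtain ⟨L0, hL0⟩ := phi_nil hC' hP R (N y) (hN y) (δ / 2) (by positivity)
      refine ⟨L0, fun L hL => ?_⟩
      rw [dist_zero_right, norm_div, norm_mul]
      have hz : ‖(ZL L : ℂ)‖ = ZL L := by
        rw [Complex.norm_real, Real.norm_eq_abs, abs_of_nonneg (ZL_nonneg L)]
      rw [hz]
      refine lt_of_le_of_lt (div_le_of_le_mul₀ (ZL_nonneg L) (by positivity : (0:ℝ) ≤ δ / 2) ?_)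
        (by linarith : δ / 2 < δ)
      calc ‖phi R L (N y)‖ * ‖h y‖ ≤ ‖phi R L (N y)‖ * 1 :=
            mul_le_mul_of_nonneg_left (hh1 y) (norm_nonneg _)
        _ ≤ δ / 2 * ZL L := by rw [mul_one]; exact hL0 L hL
  rw [Metric.tendsto_atTop] at hlim
  obtain ⟨L0, hL0⟩ := hlim (1 / 8) (by norm_num)
  have h1 := hL0 (max L0 1) (le_max_left _ _)
  set L := max L0 1 with hLdef
  have hL1 : 1 ≤ L := le_max_right _ _
  have hpos := ZL_pos L hL1
  rw [dist_zero_right] at h1
  have e : ∫ y, phi R L (N y) * h y / (ZL L : ℂ) ∂ν =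
      (∫ y, phi R L (N y) * h y ∂ν) / (ZL L : ℂ) := by
    simp only [div_eq_mul_inv]
    rw [integral_mul_const]
  rw [e, norm_div, Complex.norm_real, Real.norm_eq_abs, abs_of_nonneg (ZL_nonneg L),
    div_lt_iff₀ hpos] at h1
  exact absurd h1 (not_lt.2 (hlow L))


/-- A nilsequence in one variable is one in two variables. -/
lemma isNil_one_two {N : (Fin 1 → ℤ) → ℂ} (h : IsNil 1 N) :
    IsNil 2 (fun n => N (fun _ => n 0)) := by
  intro ε hε
  obtain ⟨N', ⟨d, G, F, β, a, hF, hβ, hN'⟩, hNN⟩ := h ε hε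
  refine ⟨fun n => N' (fun _ => n 0), ⟨d, G, F, ![β 0, 0], a, hF, ?_, ?_⟩, fun n => hNN _⟩
  · intro t
    fin_cases t
    · exact hβ 0
    · intro m n
      exact (G.zero_op 0).symm
  · intro n
    show N' (fun _ => n 0) = _
    rw [hN']
    simp only [List.ofFn_succ, List.ofFn_zero, List.foldr_cons, List.foldr_nil,
      Matrix.cons_val_zero, Fin.succ_zero_eq_one, Matrix.cons_val_one]
    have : G.op ((0 : ℤ → (Fin d → ℝ)) (n 1)) a = a := G.zero_op a
    rw [this]

theorem t_MAIN (hS : S_SYS) (hA : S_ALLOC) (hC : S_CHER) (hP : S_PAT) : S_MAIN := by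
  obtain ⟨R, W, hr, hc, hu, hW⟩ := hA
  obtain ⟨Ω, mΩ, μ, hμ, S, f, hS1, hS2, hf, hf1, hint⟩ := hS W hr hc hu
  have hpow : ∀ n : ℕ, MeasurePreserving (⇑(S ^ n)) μ μ := by
    intro n
    induction n with
    | zero => simpa using MeasurePreserving.id μ
    | succ n ih => 
      have : (⇑(S ^ (n + 1)) : Ω → Ω) = (⇑(S ^ n)) ∘ (⇑S) := by
        rw [pow_succ]; rfl
      rw [this]; exact ih.comp hS1
  have hpow' : ∀ n : ℕ, MeasurePreserving (⇑((S ^ n).symm)) μ μ := by
    intro n
    induction n with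
    | zero => exact MeasurePreserving.id μ
    | succ n ih => 
      have : (⇑((S ^ (n + 1)).symm) : Ω → Ω) = (⇑S.symm) ∘ (⇑((S ^ n).symm)) := by
        rw [pow_succ]; rfl
      rw [this]; exact hS2.comp ih
  -- the values of the correlation sequence
  have hval : ∀ (L : ℕ) (p : Fin L → Fin L → Bool) (i j : Fin L),
      3 / 8 ≤ ((sg (p i j) : ℂ) * corr μ ![S, S ^ 2] ![f, f, f] (pt (R L p) L i j)).re := by
    intro L p i j
    have hlt : R L p + (i : ℕ) < R L p + L + (j : ℕ) := by have := i.2; omega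
    have h0 := hint (R L p + i) (R L p + L + j) hlt
    rw [hW L p i j] at h0
    have e1 : corr μ ![S, S ^ 2] ![f, f, f] (pt (R L p) L i j) =
        ∫ x, f x * f ((S ^ (nn (R L p + i) (R L p + L + j))) x) *
          f ((S ^ (2 * nn (R L p + i) (R L p + L + j))) x) ∂μ := by
      unfold corr pt
      refine integral_congr_ae (Eventually.of_forall fun x => ?_)
      simp only [Fin.prod_univ_two, Matrix.cons_val_zero, Matrix.cons_val_one,
        Fin.succ_zero_eq_one, Fin.succ_one_eq_two, Matrix.cons_val, zpow_natCast, ← pow_mul]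
      ring
    rw [← e1] at h0
    have h2 := re_target (p i j)
    set w : ℂ := om (2 * (if p i j then 1 else 0)) with hw
    set C := corr μ ![S, S ^ 2] ![f, f, f] (pt (R L p) L i j) with hCd
    have h3 : ‖(sg (p i j) : ℂ) * C - (sg (p i j) : ℂ) * w‖ ≤ 1 / 8 := by
      rw [← mul_sub, norm_mul, norm_sg, one_mul]; exact h0
    have h4 := Complex.abs_re_le_norm ((sg (p i j) : ℂ) * C - (sg (p i j) : ℂ) * w)
    rw [Complex.sub_re] at h4
    have h5 := abs_le.1 (h4.trans h3)
    linarith [h5.1]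
  refine ⟨Ω, mΩ, μ, hμ, ![S, S ^ 2], ![f, f, f], ?_, ?_, ?_, rfl, rfl, rfl, ?_, ?_, ?_, ?_⟩
  · intro i; fin_cases i
    · exact hS1
    · exact hpow 2
  · intro i; fin_cases i
    · exact hS2
    · exact hpow' 2
  · intro i j
    fin_cases i <;> fin_cases j
    · rfl
    · show S * S ^ 2 = S ^ 2 * S
      rw [← pow_succ', ← pow_succ]
    · show S ^ 2 * S = S * S ^ 2
      rw [← pow_succ', ← pow_succ]
    · rfl
  · intro i; fin_cases i <;> exact hf
  · intro i; fin_cases i <;> exact hf1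
  · rintro ⟨Y, mY, ν, hν, h, g, N, hh, hh1, hg, hN, hNm, hNg, happ⟩
    exact no_rep hC hP R _ hval ν h g N hh hh1 hg hN hNm hNg fun m => happ _
  · rintro ⟨Y, mY, ν, hν, h, g, N, hh, hh1, hg, hN, hNm, hNg, happ⟩
    refine no_rep hC hP R _ hval ν h g (fun y n => N y (fun _ => n 0)) hh hh1 hg
      (fun y => isNil_one_two (hN y)) (fun n => hNm _) (fun y n => hNg y _) fun m => ?_
    exact happ fun _ => m

end Pool.Agent.U50.MC
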