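import Pool.Agent.U50.MC.Stm

/-!
# Project MC (MP_b4ed41_an), final form: polynomial nilsequences, every `ℓ ≥ 2`
-/

set_option autoImplicit false

namespace Pool.Agent.U50.MC2

open MeasureTheory Polynomial Pool.Agent.U50.MC

/-- Basic nilsequences in `ℓ` variables: `n ↦ F (g n Γ)` with a continuous function `F` on a
nilmanifold `G / Γ` and a polynomial sequence `g` in `G`, i.e. a map `ℤ^ℓ → G` whose Mal'cev
coordinates are real polynomials in `n`.  By `isBasicNil_of_pow` (file `Pow.lean`) the sequences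
`F (b_1 ^ n_1 ⋯ b_ℓ ^ n_ℓ a Γ)` are of this kind. -/
def IsBasicNil (ℓ : ℕ) (N : (Fin ℓ → ℤ) → ℂ) : Prop :=
  ∃ (d : ℕ) (G : Nil d) (F : (Fin d → ℝ) → ℂ) (g : Fin d → MvPolynomial (Fin ℓ) ℝ),
    G.IsFun F ∧ ∀ n, N n = F (fun k => MvPolynomial.eval (fun i => (n i : ℝ)) (g k))

/-- Nilsequences in `ℓ` variables (of any step): uniform limits of basic nilsequences. -/
def IsNil (ℓ : ℕ) (N : (Fin ℓ → ℤ) → ℂ) : Prop :=
  ∀ ε : ℝ, 0 < ε → ∃ N', IsBasicNil ℓ N' ∧ ∀ n, ‖N n - N' n‖ ≤ ε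

/-- `C` is, up to `ε` in the supremum norm, an integral combination of nilsequences:
`C n ≈ ∫ N_y n dσ(y)` with the complex measure `σ = h ν` (`ν` finite, `|h| ≤ 1`), nilsequences
`N_y` in `ℓ` variables with `y ↦ N_y n` measurable and `sup_n |N_y n| ≤ g y`, `g` integrable. -/
def Representable (ℓ : ℕ) (ε : ℝ) (C : (Fin ℓ → ℤ) → ℂ) : Prop :=
  ∃ (Y : Type) (_ : MeasurableSpace Y) (ν : Measure Y) (_ : IsFiniteMeasure ν)
    (h : Y → ℂ) (g : Y → ℝ) (N : Y → (Fin ℓ → ℤ) → ℂ),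
    AEStronglyMeasurable h ν ∧ (∀ y, ‖h y‖ ≤ 1) ∧ Integrable g ν ∧
    (∀ y, IsNil ℓ (N y)) ∧ (∀ n, AEStronglyMeasurable (fun y => N y n) ν) ∧
    (∀ y n, ‖N y n‖ ≤ g y) ∧
    ∀ n, ‖C n - ∫ y, N y n * h y ∂ν‖ ≤ ε

end Pool.Agent.U50.MC2
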