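import Mathlib

/-!
# Project MC (MP_b4ed41_an): multiple correlation sequences that are not integral
combinations of nilsequences.  Definitions and the statements of the packages.
-/

set_option autoImplicit false

namespace Pool.Agent.U50.MC

open MeasureTheory Polynomial

/-- The operation `(x * y)_i = x_i + y_i + P_i(x, y)` on `ℝ^d`. -/
noncomputable def rawOp {d : ℕ} (P : Fin d → MvPolynomial (Fin d ⊕ Fin d) ℝ)
    (x y : Fin d → ℝ) : Fin d → ℝ :=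
  fun i => x i + y i + MvPolynomial.eval (Sum.elim x y) (P i)

/-- A connected simply connected nilpotent Lie group with a lattice, in Mal'cev coordinates of
the second kind: the group is `ℝ^d`, the product is `(x * y)_i = x_i + y_i + P_i(x, y)` with
polynomials `P_i` which involve only the coordinates `< i` of `x` and `y`, and the lattice
is `ℤ^d` (closed under the product). -/
structure Nil (d : ℕ) where
  P : Fin d → MvPolynomial (Fin d ⊕ Fin d) ℝ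
  tri : ∀ i, ∀ v ∈ (P i).vars, ∃ j : Fin d, j < i ∧ (v = Sum.inl j ∨ v = Sum.inr j)
  assoc : ∀ x y z, rawOp P (rawOp P x y) z = rawOp P x (rawOp P y z)
  zero_op : ∀ x, rawOp P 0 x = x
  op_zero : ∀ x, rawOp P x 0 = x
  int_op : ∀ m n : Fin d → ℤ, ∃ k : Fin d → ℤ,
    rawOp P (fun i => (m i : ℝ)) (fun i => (n i : ℝ)) = fun i => (k i : ℝ)

/-- The product of the group. -/
noncomputable def Nil.op {d : ℕ} (G : Nil d) (x y : Fin d → ℝ) : Fin d → ℝ := rawOp G.P x y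

/-- `F` is (the lift to the group of) a continuous function on the nilmanifold. -/
def Nil.IsFun {d : ℕ} (G : Nil d) (F : (Fin d → ℝ) → ℂ) : Prop :=
  Continuous F ∧ ∀ (x : Fin d → ℝ) (m : Fin d → ℤ), F (G.op x (fun i => (m i : ℝ))) = F x

/-- `β n = b ^ n` for an element `b` of the group (`b = β 1`). -/
def Nil.IsPow {d : ℕ} (G : Nil d) (β : ℤ → (Fin d → ℝ)) : Prop :=
  ∀ m n, β (m + n) = G.op (β m) (β n)

/-- Basic nilsequences in `ℓ` variables: `n ↦ F (b_1 ^ n_1 ⋯ b_ℓ ^ n_ℓ a Γ)`. -/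
def IsBasicNil (ℓ : ℕ) (N : (Fin ℓ → ℤ) → ℂ) : Prop :=
  ∃ (d : ℕ) (G : Nil d) (F : (Fin d → ℝ) → ℂ) (β : Fin ℓ → ℤ → (Fin d → ℝ)) (a : Fin d → ℝ),
    G.IsFun F ∧ (∀ t, G.IsPow (β t)) ∧
    ∀ n, N n = F ((List.ofFn fun t => β t (n t)).foldr G.op a)

/-- Nilsequences in `ℓ` variables (of any step): uniform limits of basic nilsequences. -/
def IsNil (ℓ : ℕ) (N : (Fin ℓ → ℤ) → ℂ) : Prop :=
  ∀ ε : ℝ, 0 < ε → ∃ N', IsBasicNil ℓ N' ∧ ∀ n, ‖N n - N' n‖ ≤ ε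

/-- `C` is, up to `ε` in the supremum norm, an integral combination of nilsequences:
`C n = ∫ N_y n dσ(y)` with the complex measure `σ = h ν` and with `sup_n |N_y n|`
dominated by an integrable function. -/
def Representable (ℓ : ℕ) (ε : ℝ) (C : (Fin ℓ → ℤ) → ℂ) : Prop :=
  ∃ (Y : Type) (_ : MeasurableSpace Y) (ν : Measure Y) (_ : IsFiniteMeasure ν)
    (h : Y → ℂ) (g : Y → ℝ) (N : Y → (Fin ℓ → ℤ) → ℂ),
    AEStronglyMeasurable h ν ∧ (∀ y, ‖h y‖ ≤ 1) ∧ Integrable g ν ∧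
    (∀ y, IsNil ℓ (N y)) ∧ (∀ n, AEStronglyMeasurable (fun y => N y n) ν) ∧
    (∀ y n, ‖N y n‖ ≤ g y) ∧
    ∀ n, ‖C n - ∫ y, N y n * h y ∂ν‖ ≤ ε

/-- The multiple correlation sequence. -/
noncomputable def corr {Ω : Type} [MeasurableSpace Ω] (μ : Measure Ω) {ℓ : ℕ}
    (T : Fin ℓ → Equiv.Perm Ω) (f : Fin (ℓ + 1) → Ω → ℂ) (n : Fin ℓ → ℤ) : ℂ :=
  ∫ x, f 0 x * ∏ i : Fin ℓ, f i.succ ((T i ^ n i) x) ∂μ

/-- A cube root of unity to the power `z`. -/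
noncomputable def om (z : ZMod 3) : ℂ := Complex.exp (2 * Real.pi * Complex.I / 3) ^ z.val

/-- `64 ^ i + 64 ^ j`. -/
def nn (i j : ℕ) : ℕ := 64 ^ i + 64 ^ j

/-- The sign `(-1)^b`. -/
def sg (b : Bool) : ℝ := if b then -1 else 1

/-- The point `(n, n)`, `n = 64 ^ (R+i) + 64 ^ (R+L+j)`. -/
def pt (R L i j : ℕ) : Fin 2 → ℤ := fun _ => (nn (R + i) (R + L + j) : ℤ)

/-! ## Statements of the packages -/

/-- DIG: an odometer with base 64 digits. -/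
def S_DIG : Prop :=
  ∃ (Ω : Type) (_ : MeasurableSpace Ω) (μ : Measure Ω) (_ : IsProbabilityMeasure μ)
    (T : Equiv.Perm Ω) (dig : ℕ → Ω → ℕ),
    MeasurePreserving T μ μ ∧ MeasurePreserving T.symm μ μ ∧
    (∀ r, Measurable (dig r)) ∧
    (∀ r, μ {x | 62 ≤ dig r x} ≤ ENNReal.ofReal (1 / 32)) ∧
    (∀ i j, i < j → ∀ x, dig i x < 62 → dig j x < 62 → ∀ t, t = 1 ∨ t = 2 → ∀ r,
      dig r ((T ^ (t * nn i j)) x) = dig r x + if r = i ∨ r = j then t else 0) ∧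
    (∀ᵐ x ∂μ, ∀ n : ℕ, {r | dig r ((T ^ n) x) ≠ dig r x}.Finite)

/-- COC: over a digit system, the formal sum `U = ∑_{a<b} W a b * dig a * dig b` has a
well-defined measurable coboundary. -/
def S_COC : Prop :=
  ∀ (Ω : Type) (_ : MeasurableSpace Ω) (μ : Measure Ω) (_ : IsProbabilityMeasure μ)
    (T : Equiv.Perm Ω) (dig : ℕ → Ω → ℕ),
    MeasurePreserving T μ μ → (∀ r, Measurable (dig r)) →
    (∀ i j, i < j → ∀ x, dig i x < 62 → dig j x < 62 → ∀ t, t = 1 ∨ t = 2 → ∀ r,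
      dig r ((T ^ (t * nn i j)) x) = dig r x + if r = i ∨ r = j then t else 0) →
    (∀ᵐ x ∂μ, ∀ n : ℕ, {r | dig r ((T ^ n) x) ≠ dig r x}.Finite) →
    ∀ W : ℕ → ℕ → ZMod 3, (∀ i, {j | W i j ≠ 0}.Finite) → (∀ j, {i | W i j ≠ 0}.Finite) →
      (∀ i j, W i j ≠ 0 → i < j) →
      ∃ c : Ω → ZMod 3, Measurable c ∧ ∀ᵐ x ∂μ, ∀ i j, i < j → dig i x < 62 → dig j x < 62 →
        (∑ t ∈ Finset.range (nn i j), c ((T ^ t) x)) +
          (∑ t ∈ Finset.range (2 * nn i j), c ((T ^ t) x)) = 2 * W i j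

/-- SKP: the skew product with a cocycle with values in `ℤ/3`. -/
def S_SKP : Prop :=
  ∀ (Ω : Type) (_ : MeasurableSpace Ω) (μ : Measure Ω) (_ : IsProbabilityMeasure μ)
    (T : Equiv.Perm Ω) (c : Ω → ZMod 3),
    MeasurePreserving T μ μ → MeasurePreserving T.symm μ μ → Measurable c →
    ∃ (X : Type) (_ : MeasurableSpace X) (ρ : Measure X) (_ : IsProbabilityMeasure ρ)
      (S : Equiv.Perm X) (f : X → ℂ),
      MeasurePreserving S ρ ρ ∧ MeasurePreserving S.symm ρ ρ ∧ Measurable f ∧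
      (∀ x, ‖f x‖ ≤ 1) ∧
      ∀ n : ℕ, (∫ x, f x * f ((S ^ n) x) * f ((S ^ (2 * n)) x) ∂ρ) =
        ∫ x, om ((∑ t ∈ Finset.range n, c ((T ^ t) x)) +
          ∑ t ∈ Finset.range (2 * n), c ((T ^ t) x)) ∂μ

/-- SYS: the system. -/
def S_SYS : Prop :=
  ∀ W : ℕ → ℕ → ZMod 3, (∀ i, {j | W i j ≠ 0}.Finite) → (∀ j, {i | W i j ≠ 0}.Finite) →
    (∀ i j, W i j ≠ 0 → i < j) →
    ∃ (Ω : Type) (_ : MeasurableSpace Ω) (μ : Measure Ω) (_ : IsProbabilityMeasure μ)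
      (S : Equiv.Perm Ω) (f : Ω → ℂ),
      MeasurePreserving S μ μ ∧ MeasurePreserving S.symm μ μ ∧ Measurable f ∧
      (∀ x, ‖f x‖ ≤ 1) ∧
      ∀ i j, i < j →
        ‖(∫ x, f x * f ((S ^ (nn i j)) x) * f ((S ^ (2 * nn i j)) x) ∂μ) - om (2 * W i j)‖
          ≤ 1 / 8

/-- ALLOC: a single array containing every square 0-1 pattern in its own window. -/
def S_ALLOC : Prop :=
  ∃ (R : (L : ℕ) → (Fin L → Fin L → Bool) → ℕ) (W : ℕ → ℕ → ZMod 3),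
    (∀ i, {j | W i j ≠ 0}.Finite) ∧ (∀ j, {i | W i j ≠ 0}.Finite) ∧
    (∀ i j, W i j ≠ 0 → i < j) ∧
    ∀ (L : ℕ) (p : Fin L → Fin L → Bool) (i j : Fin L),
      W (R L p + i) (R L p + L + j) = if p i j then 1 else 0

/-- CHER: random signs do not correlate with a family of `A ^ L` patterns. -/
def S_CHER : Prop :=
  ∀ (A : ℕ) (B δ : ℝ), 0 < δ → ∃ L0 : ℕ, ∀ L ≥ L0,
    ∀ Ys : Finset (Fin L → Fin L → ℂ), Ys.card ≤ A ^ L →
      (∀ y ∈ Ys, ∀ i j, ‖y i j‖ ≤ B) →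
      ∀ Y : (Fin L → Fin L → Bool) → (Fin L → Fin L → ℂ), (∀ p, Y p ∈ Ys) →
        ‖∑ p : Fin L → Fin L → Bool, ∑ i, ∑ j, (sg (p i j) : ℂ) * Y p i j‖
          ≤ δ * (2 ^ (L * L) * (L * L))

/-- HOM: powers are polynomial in the exponent. -/
def S_HOM : Prop :=
  ∀ (d : ℕ) (G : Nil d) (β : ℤ → (Fin d → ℝ)), G.IsPow β →
    ∃ q : Fin d → ℝ[X], ∀ (n : ℕ) (k : Fin d), β (n : ℤ) k = (q k).eval (n : ℝ)

/-- RED: a polynomial vector can be reduced modulo integral polynomial vectors to have all its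
coefficients in `[0, 1]`, with a bounded degree. -/
def S_RED : Prop :=
  ∀ (d : ℕ) (G : Nil d) (E : ℕ), ∃ D : ℕ, ∀ x : Fin d → ℝ[X], (∀ k, (x k).natDegree ≤ E) →
    ∃ γ : Fin d → ℤ[X], ∃ y : Fin d → ℝ[X],
      (∀ k, y k = x k + (γ k).map (Int.castRingHom ℝ) +
        MvPolynomial.aeval (Sum.elim x (fun j => (γ j).map (Int.castRingHom ℝ))) (G.P k)) ∧
      (∀ k, (y k).natDegree ≤ D) ∧ ∀ k t, 0 ≤ (y k).coeff t ∧ (y k).coeff t ≤ 1

/-- UNIF: continuous functions on the nilmanifold are bounded, and polynomially uniformly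
continuous in the coordinates. -/
def S_UNIF : Prop :=
  ∀ (d : ℕ) (G : Nil d) (F : (Fin d → ℝ) → ℂ), G.IsFun F →
    (∃ B : ℝ, ∀ x, ‖F x‖ ≤ B) ∧
    ∀ ε : ℝ, 0 < ε → ∃ C D : ℕ, ∀ M : ℝ, 1 ≤ M → ∀ y y' : Fin d → ℝ,
      (∀ k, |y k| ≤ M) → (∀ k, |y' k| ≤ M) → (∀ k, |y k - y' k| * (C * M ^ D) ≤ 1) →
      ‖F y - F y'‖ ≤ ε

/-- PAT: along the windows a basic nilsequence has at most `A ^ L` patterns. -/
def S_PAT : Prop :=
  ∀ N : (Fin 2 → ℤ) → ℂ, IsBasicNil 2 N → ∃ B : ℝ, ∀ ε : ℝ, 0 < ε → ∃ A : ℕ, ∀ L : ℕ, 1 ≤ L →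
    ∃ Ys : Finset (Fin L → Fin L → ℂ), Ys.card ≤ A ^ L ∧ (∀ y ∈ Ys, ∀ i j, ‖y i j‖ ≤ B) ∧
      ∀ R : ℕ, ∃ y ∈ Ys, ∀ i j : Fin L, ‖N (pt R L i j) - y i j‖ ≤ ε

/-- The result. -/
def S_MAIN : Prop :=
  ∃ (Ω : Type) (_ : MeasurableSpace Ω) (μ : Measure Ω) (_ : IsProbabilityMeasure μ)
    (T : Fin 2 → Equiv.Perm Ω) (f : Fin 3 → Ω → ℂ),
    (∀ i, MeasurePreserving (T i) μ μ) ∧ (∀ i, MeasurePreserving (T i).symm μ μ) ∧
    (∀ i j, T i * T j = T j * T i) ∧ T 1 = T 0 ^ 2 ∧ f 1 = f 0 ∧ f 2 = f 0 ∧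
    (∀ i, Measurable (f i)) ∧ (∀ i x, ‖f i x‖ ≤ 1) ∧
    ¬ Representable 2 (1 / 4) (corr μ T f) ∧
    ¬ Representable 1 (1 / 4) (fun n => corr μ T f (fun _ => n 0))

end Pool.Agent.U50.MC
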