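import Pool.Agent.U50.MC.Main
import Pool.Agent.U50.MC.Stm2
import Pool.Agent.U901.MC.DIG
import Pool.Agent.U2.MC.COC
import Pool.Agent.U395.MC.SKP
import Pool.Agent.U395.MC.CHER
import Pool.Agent.U796.MC.ALLOC
import Pool.Agent.U263.MC.RED
import Pool.Agent.U103.MC.UNIF
import Pool.Agent.U894.MC.PAT

/-!
# Project MC (MP_b4ed41_an), final form: assembly for polynomial nilsequences
-/

set_option autoImplicit false

namespace Pool.Agent.U50.MC2

open MeasureTheory Filter Topology Polynomial Pool.Agent.U50.MC Pool.Agent.U894.MC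

/-- One-variable polynomial nilsequences on the naturals. -/
def IsSeq (N : ℕ → ℂ) : Prop :=
  ∃ (d : ℕ) (G : Nil d) (F : (Fin d → ℝ) → ℂ) (g : Fin d → ℝ[X]),
    G.IsFun F ∧ ∀ n : ℕ, N n = F (fun k => (g k).eval (n : ℝ))

/-- the point `64 ^ (R+i) + 64 ^ (R+L+j)` -/
def qt (R L i j : ℕ) : ℕ := nn (R + i) (R + L + j)

/-- (after the package PAT of helper894) -/
theorem pat (hRED : S_RED) (hUNIF : S_UNIF) (N : ℕ → ℂ) (hN : IsSeq N) :
    ∃ B : ℝ, ∀ ε : ℝ, 0 < ε → ∃ A : ℕ, ∀ L : ℕ, 1 ≤ L →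
    ∃ Ys : Finset (Fin L → Fin L → ℂ), Ys.card ≤ A ^ L ∧ (∀ y ∈ Ys, ∀ i j, ‖y i j‖ ≤ B) ∧
      ∀ R : ℕ, ∃ y ∈ Ys, ∀ i j : Fin L, ‖N (qt R L i j) - y i j‖ ≤ ε := by
  obtain ⟨d, G, F, g, hF, hval⟩ := hN
  obtain ⟨⟨B, hB⟩, hU⟩ := hUNIF d G F hF
  refine ⟨B, fun ε hε => ?_⟩
  obtain ⟨C, D, hCD⟩ := hU ε hε
  obtain ⟨D1, hD1⟩ := hRED d G (Finset.univ.sup fun k => (g k).natDegree)
  refine ⟨(((C + 2) * ((D1 + 1) * 64 ^ (2 * D1)) ^ (D + 1)) ^ ((D1 + 1) * d)), fun L hL => ?_⟩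
  classical
  set M : ℕ := (D1 + 1) * 64 ^ (2 * L * D1) with hM
  have hMpos : 0 < M := by positivity
  set Q : ℕ := (C + 1) * M ^ (D + 1) with hQ
  have hQpos : 0 < Q := by positivity
  let Yc : (Fin d → Fin (D1 + 1) → Fin (Q + 1)) → Fin L → Fin L → ℂ := fun c i j =>
    F (fun k => ∑ t : Fin (D1 + 1), ((c k t : ℕ) : ℝ) / Q * (nn i (L + j) : ℝ) ^ (t : ℕ))
  refine ⟨Finset.univ.image Yc, ?_, ?_, ?_⟩
  · refine Finset.card_image_le.trans ?_
    rw [Finset.card_univ, Fintype.card_fun, Fintype.card_fun, Fintype.card_fin, Fintype.card_fin,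
      Fintype.card_fin, ← pow_mul, ← pow_mul, mul_comm ((D1 + 1) * d) L, pow_mul _ L]
    exact Nat.pow_le_pow_left (Q_le C D D1 L hL) _
  · intro y hy i j
    obtain ⟨c, _, rfl⟩ := Finset.mem_image.1 hy
    exact hB _
  · intro R
    obtain ⟨γ, y, hy, hdeg, hco⟩ := hD1 (fun k => (g k).comp (Polynomial.C (64 ^ R : ℝ) * X))
      (by
        intro k
        refine natDegree_comp_le.trans ?_
        have h1 : (Polynomial.C (64 ^ R : ℝ) * X).natDegree ≤ 1 := (natDegree_C_mul_le _ _).trans natDegree_X_le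
        calc (g k).natDegree * (Polynomial.C (64 ^ R : ℝ) * X).natDegree
            ≤ (g k).natDegree * 1 := Nat.mul_le_mul_left _ h1
          _ = (g k).natDegree := mul_one _
          _ ≤ _ := Finset.le_sup (f := fun k => (g k).natDegree) (Finset.mem_univ k))
    have hfl : ∀ k (t : Fin (D1 + 1)), ⌊(y k).coeff t * Q⌋₊ < Q + 1 := by
      intro k t
      have h1 := (hco k t).2
      have h2 : (y k).coeff t * Q ≤ Q := by
        have : (0 : ℝ) < Q := by exact_mod_cast hQpos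
        nlinarith
      have h3 : ⌊(y k).coeff t * Q⌋₊ ≤ ⌊(Q : ℝ)⌋₊ := Nat.floor_le_floor h2
      rw [Nat.floor_natCast] at h3
      omega
    refine ⟨Yc (fun k t => ⟨⌊(y k).coeff t * Q⌋₊, hfl k t⟩),
      Finset.mem_image_of_mem _ (Finset.mem_univ _), fun i j => ?_⟩
    -- the value of `N`
    set n' : ℕ := nn i (L + j) with hn'
    have h1n : 1 ≤ n' := nn_pos _ _
    have hnle : n' ≤ 64 ^ (2 * L) := nn_le i.isLt j.isLt
    have hNv : N (qt R L i j) = F (fun k => (y k).eval (n' : ℝ)) := by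
      have e1 : N (qt R L i j) = F (fun k => (g k).eval ((nn (R + i) (R + L + j) : ℕ) : ℝ)) :=
        hval _
      rw [e1, nn_shift]
      have hy' : y = opP G (fun k => (g k).comp (Polynomial.C (64 ^ R : ℝ) * X))
          (fun k => (γ k).map (Int.castRingHom ℝ)) := by
        funext k; exact hy k
      rw [hy', eval_opP G (fun k => (g k).comp (Polynomial.C (64 ^ R : ℝ) * X))]
      have e2 : (fun k => ((γ k).map (Int.castRingHom ℝ)).eval (n' : ℝ)) =
          fun k => (((γ k).eval (n' : ℤ) : ℤ) : ℝ) := by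
        funext k
        have := Polynomial.eval_intCast_map (Int.castRingHom ℝ) (γ k) (n' : ℤ)
        simpa using this
      rw [e2, hF.2]
      congr 1
      funext k
      rw [eval_comp]
      congr 1
      simp [hn']
    rw [hNv]
    -- the approximation
    have hey : ∀ k, (y k).eval (n' : ℝ) =
        ∑ t : Fin (D1 + 1), (y k).coeff t * (n' : ℝ) ^ (t : ℕ) := by
      intro k
      rw [eval_eq_sum_range' (Nat.lt_succ_of_le (hdeg k)), Finset.sum_range]
    have hQr : (0 : ℝ) < Q := by exact_mod_cast hQpos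
    have hsum : ∑ t : Fin (D1 + 1), (n' : ℝ) ^ (t : ℕ) ≤ (M : ℝ) := sum_pow_le D1 L n' h1n hnle
    have hpw : ∀ t : ℕ, (0 : ℝ) ≤ (n' : ℝ) ^ t := fun t => by positivity
    refine hCD (M : ℝ) (by exact_mod_cast hMpos) _ _ ?_ ?_ ?_
    · intro k
      rw [hey]
      refine (Finset.abs_sum_le_sum_abs _ _).trans (le_trans (Finset.sum_le_sum ?_) hsum)
      intro t _
      rw [abs_mul, abs_of_nonneg (hco k t).1, abs_of_nonneg (hpw t)]
      exact mul_le_of_le_one_left (hpw t) (hco k t).2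
    · intro k
      refine (Finset.abs_sum_le_sum_abs _ _).trans (le_trans (Finset.sum_le_sum ?_) hsum)
      intro t _
      have h3 : ((⌊(y k).coeff t * Q⌋₊ : ℕ) : ℝ) / Q ≤ 1 := by
        rw [div_le_one hQr]
        exact_mod_cast Nat.lt_succ_iff.1 (hfl k t)
      have h4 : (0 : ℝ) ≤ ((⌊(y k).coeff t * Q⌋₊ : ℕ) : ℝ) / Q := by positivity
      rw [abs_mul, abs_of_nonneg h4, abs_of_nonneg (hpw t)]
      exact mul_le_of_le_one_left (hpw t) h3
    · intro k
      have h5 : |(y k).eval (n' : ℝ) -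
          ∑ t : Fin (D1 + 1), ((⌊(y k).coeff t * Q⌋₊ : ℕ) : ℝ) / Q * (n' : ℝ) ^ (t : ℕ)| ≤
            M / Q := by
        rw [hey, ← Finset.sum_sub_distrib]
        refine (Finset.abs_sum_le_sum_abs _ _).trans ?_
        have h6 : ∀ t ∈ (Finset.univ : Finset (Fin (D1 + 1))),
            |(y k).coeff t * (n' : ℝ) ^ (t : ℕ) -
              ((⌊(y k).coeff t * Q⌋₊ : ℕ) : ℝ) / Q * (n' : ℝ) ^ (t : ℕ)| ≤
                (n' : ℝ) ^ (t : ℕ) / Q := by
          intro t _
          rw [← sub_mul, abs_mul, abs_of_nonneg (hpw t)]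
          have h7 : (⌊(y k).coeff t * Q⌋₊ : ℝ) ≤ (y k).coeff t * Q :=
            Nat.floor_le (mul_nonneg (hco k t).1 hQr.le)
          have h8 : (y k).coeff t * Q < (⌊(y k).coeff t * Q⌋₊ : ℝ) + 1 := Nat.lt_floor_add_one _
          have h9 : |(y k).coeff t - (⌊(y k).coeff t * Q⌋₊ : ℝ) / Q| ≤ 1 / Q := by
            rw [abs_le]
            constructor
            · rw [neg_le_sub_iff_le_add, div_le_iff₀ hQr, add_mul, div_mul_cancel₀ _ hQr.ne']
              linarith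
            · rw [sub_le_iff_le_add, ← add_div, le_div_iff₀ hQr]
              linarith
          calc |(y k).coeff t - (⌊(y k).coeff t * Q⌋₊ : ℝ) / Q| * (n' : ℝ) ^ (t : ℕ)
              ≤ 1 / Q * (n' : ℝ) ^ (t : ℕ) := mul_le_mul_of_nonneg_right h9 (hpw t)
            _ = (n' : ℝ) ^ (t : ℕ) / Q := by ring
        refine (Finset.sum_le_sum h6).trans ?_
        rw [← Finset.sum_div]
        exact div_le_div_of_nonneg_right hsum hQr.le
      have hMr : (0 : ℝ) < M := by exact_mod_cast hMpos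
      have hCM : (0 : ℝ) ≤ (C : ℝ) * (M : ℝ) ^ D := by positivity
      refine (mul_le_mul_of_nonneg_right h5 hCM).trans ?_
      rw [div_mul_eq_mul_div, div_le_one hQr, hQ]
      push_cast
      have h10 : (0 : ℝ) < (M : ℝ) ^ D := by positivity
      rw [pow_succ]
      nlinarith [mul_pos h10 hMr]



/-- the test functional -/
noncomputable def phi (R : (L : ℕ) → (Fin L → Fin L → Bool) → ℕ) (L : ℕ) (N : ℕ → ℂ) : ℂ :=
  ∑ p : Fin L → Fin L → Bool, ∑ i : Fin L, ∑ j : Fin L,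
    (sg (p i j) : ℂ) * N (qt (R L p) L i j)

lemma phi_nil (R : (L : ℕ) → (Fin L → Fin L → Bool) → ℕ)
    (N : ℕ → ℂ) (hN : ∀ ε : ℝ, 0 < ε → ∃ N', IsSeq N' ∧ ∀ n, ‖N n - N' n‖ ≤ ε)
    (δ : ℝ) (hδ : 0 < δ) :
    ∃ L0, ∀ L ≥ L0, ‖phi R L N‖ ≤ δ * ZL L := by
  obtain ⟨N', hN', hNN⟩ := hN (δ / 3) (by positivity)
  obtain ⟨B, hB⟩ := pat Pool.Agent.U263.MC.t_RED Pool.Agent.U103.MC.t_UNIF N' hN'
  obtain ⟨A, hA⟩ := hB (δ / 3) (by positivity)
  obtain ⟨L0, hL0⟩ := Pool.Agent.U395.MC.t_CHER A B (δ / 3) (by positivity)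
  refine ⟨max L0 1, fun L hL => ?_⟩
  obtain ⟨Ys, hc, hb, hR⟩ := hA L (le_trans (le_max_right _ _) hL)
  choose Y hY hYN using fun p : Fin L → Fin L → Bool => hR (R L p)
  have h3 := hL0 L (le_trans (le_max_left _ _) hL) Ys hc hb Y hY
  have h1 := sum_bound L (fun p i j => N (qt (R L p) L i j) - N' (qt (R L p) L i j)) (δ / 3)
    (fun p i j => hNN _)
  have h2 := sum_bound L (fun p i j => N' (qt (R L p) L i j) - Y p i j) (δ / 3)
    (fun p i j => hYN p i j)
  have e : phi R L N =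
      (∑ p : Fin L → Fin L → Bool, ∑ i : Fin L, ∑ j : Fin L,
        (sg (p i j) : ℂ) * (N (qt (R L p) L i j) - N' (qt (R L p) L i j))) +
      (∑ p : Fin L → Fin L → Bool, ∑ i : Fin L, ∑ j : Fin L,
        (sg (p i j) : ℂ) * (N' (qt (R L p) L i j) - Y p i j)) +
      ∑ p : Fin L → Fin L → Bool, ∑ i : Fin L, ∑ j : Fin L, (sg (p i j) : ℂ) * Y p i j := by
    unfold phi
    simp only [← Finset.sum_add_distrib]
    refine Finset.sum_congr rfl fun p _ => Finset.sum_congr rfl fun i _ =>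
      Finset.sum_congr rfl fun j _ => ?_
    ring
  rw [e]
  refine (norm_add₃_le).trans ?_
  have h3' : ‖∑ p : Fin L → Fin L → Bool, ∑ i, ∑ j, (sg (p i j) : ℂ) * Y p i j‖ ≤
      δ / 3 * ZL L := h3
  linarith

/-- Along the points `n = 64^a + 64^b`, the function `C` is not an integral
combination of nilsequences if it has the prescribed correlations with the signs. -/
theorem no_rep (R : (L : ℕ) → (Fin L → Fin L → Bool) → ℕ)
    (C : ℕ → ℂ)
    (hval : ∀ (L : ℕ) (p : Fin L → Fin L → Bool) (i j : Fin L),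
      3 / 8 ≤ ((sg (p i j) : ℂ) * C (qt (R L p) L i j)).re)
    {Y : Type} [MeasurableSpace Y] (ν : Measure Y) [IsFiniteMeasure ν]
    (h : Y → ℂ) (g : Y → ℝ) (N : Y → ℕ → ℂ)
    (hh : AEStronglyMeasurable h ν) (hh1 : ∀ y, ‖h y‖ ≤ 1) (hg : Integrable g ν)
    (hN : ∀ y, ∀ ε : ℝ, 0 < ε → ∃ N', IsSeq N' ∧ ∀ n, ‖N y n - N' n‖ ≤ ε) (hNm : ∀ n, AEStronglyMeasurable (fun y => N y n) ν)
    (hNg : ∀ y n, ‖N y n‖ ≤ g y)
    (happ : ∀ m : ℕ, ‖C m - ∫ y, N y m * h y ∂ν‖ ≤ 1 / 4) : False := by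
  -- the same for the integral
  have hint2 : ∀ n, Integrable (fun y => N y n * h y) ν := by
    intro n
    refine Integrable.mono' hg ((hNm n).mul hh) (Eventually.of_forall fun y => ?_)
    rw [norm_mul]
    calc ‖N y n‖ * ‖h y‖ ≤ ‖N y n‖ * 1 :=
          mul_le_mul_of_nonneg_left (hh1 y) (norm_nonneg _)
      _ ≤ g y := by rw [mul_one]; exact hNg y n
  have hval2 : ∀ (L : ℕ) (p : Fin L → Fin L → Bool) (i j : Fin L),
      1 / 8 ≤ ((sg (p i j) : ℂ) * ∫ y, N y (qt (R L p) L i j) * h y ∂ν).re := by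
    intro L p i j
    have h2 := hval L p i j
    have h3 : ‖(sg (p i j) : ℂ) * C (qt (R L p) L i j) -
        (sg (p i j) : ℂ) * ∫ y, N y (qt (R L p) L i j) * h y ∂ν‖ ≤ 1 / 4 := by
      rw [← mul_sub, norm_mul, norm_sg, one_mul]; exact happ _
    have h4 := Complex.abs_re_le_norm ((sg (p i j) : ℂ) * C (qt (R L p) L i j) -
        (sg (p i j) : ℂ) * ∫ y, N y (qt (R L p) L i j) * h y ∂ν)
    rw [Complex.sub_re] at h4
    have h5 := abs_le.1 (h4.trans h3)
    linarith [h5.2]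
  -- integrate the test functional
  have hphi : ∀ L, ∫ y, phi R L (N y) * h y ∂ν =
      ∑ p : Fin L → Fin L → Bool, ∑ i : Fin L, ∑ j : Fin L,
        (sg (p i j) : ℂ) * ∫ y, N y (qt (R L p) L i j) * h y ∂ν := by
    intro L
    have e : ∀ y, phi R L (N y) * h y = ∑ p : Fin L → Fin L → Bool, ∑ i : Fin L, ∑ j : Fin L,
        (sg (p i j) : ℂ) * (N y (qt (R L p) L i j) * h y) := by
      intro y
      unfold phi
      simp only [Finset.sum_mul, mul_assoc]
    simp only [e]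
    rw [integral_finsetSum _ (fun p _ => integrable_finsetSum _ fun i _ =>
      integrable_finsetSum _ fun j _ => (hint2 _).const_mul _)]
    refine Finset.sum_congr rfl fun p _ => ?_
    rw [integral_finsetSum _ (fun i _ => integrable_finsetSum _ fun j _ =>
      (hint2 _).const_mul _)]
    refine Finset.sum_congr rfl fun i _ => ?_
    rw [integral_finsetSum _ (fun j _ => (hint2 _).const_mul _)]
    refine Finset.sum_congr rfl fun j _ => ?_
    rw [integral_const_mul]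
  have hlow : ∀ L, 1 / 8 * ZL L ≤ ‖∫ y, phi R L (N y) * h y ∂ν‖ := by
    intro L
    refine le_trans ?_ (Complex.re_le_norm _)
    rw [hphi L]
    simp only [Complex.re_sum]
    have : 1 / 8 * ZL L = ∑ p : Fin L → Fin L → Bool, ∑ i : Fin L, ∑ j : Fin L, (1 / 8 : ℝ) := by
      simp only [Finset.sum_const, Finset.card_univ, nsmul_eq_mul, card_pat, Fintype.card_fin, ZL]
      ring
    rw [this]
    exact Finset.sum_le_sum fun p _ => Finset.sum_le_sum fun i _ =>
      Finset.sum_le_sum fun j _ => hval2 L p i j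
  -- dominated convergence
  have hlim : Tendsto (fun L : ℕ => ∫ y, phi R L (N y) * h y / (ZL L : ℂ) ∂ν) atTop (𝓝 0) := by
    have h0 : (0:ℂ) = ∫ y, (0:ℂ) ∂ν := by simp
    rw [h0]
    refine tendsto_integral_of_dominated_convergence g ?_ hg ?_ ?_
    · intro L
      have hm : AEStronglyMeasurable (fun y => phi R L (N y)) ν := by
        unfold phi
        exact Finset.aestronglyMeasurable_fun_sum _ fun p _ =>
          Finset.aestronglyMeasurable_fun_sum _ fun i _ =>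
          Finset.aestronglyMeasurable_fun_sum _ fun j _ => (hNm _).const_mul _
      simp only [div_eq_mul_inv]
      exact (hm.mul hh).mul_const _
    · intro L
      refine Eventually.of_forall fun y => ?_
      have h1 : ‖phi R L (N y)‖ ≤ g y * ZL L := sum_bound L _ (g y) fun p i j => hNg y _
      have hg0 : 0 ≤ g y := le_trans (norm_nonneg _) (hNg y 0)
      rw [norm_div, norm_mul]
      have hz : ‖(ZL L : ℂ)‖ = ZL L := by
        rw [Complex.norm_real, Real.norm_eq_abs, abs_of_nonneg (ZL_nonneg L)]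
      rw [hz]
      refine div_le_of_le_mul₀ (ZL_nonneg L) hg0 ?_
      calc ‖phi R L (N y)‖ * ‖h y‖ ≤ ‖phi R L (N y)‖ * 1 :=
            mul_le_mul_of_nonneg_left (hh1 y) (norm_nonneg _)
        _ ≤ g y * ZL L := by rw [mul_one]; exact h1
    · refine Eventually.of_forall fun y => ?_
      rw [Metric.tendsto_atTop]
      intro δ hδ
      obtain ⟨L0, hL0⟩ := phi_nil R (N y) (hN y) (δ / 2) (by positivity)
      refine ⟨L0, fun L hL => ?_⟩
      rw [dist_zero_right, norm_div, norm_mul]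
      have hz : ‖(ZL L : ℂ)‖ = ZL L := by
        rw [Complex.norm_real, Real.norm_eq_abs, abs_of_nonneg (ZL_nonneg L)]
      rw [hz]
      refine lt_of_le_of_lt (div_le_of_le_mul₀ (ZL_nonneg L) (by positivity : (0:ℝ) ≤ δ / 2) ?_)
        (by linarith : δ / 2 < δ)
      calc ‖phi R L (N y)‖ * ‖h y‖ ≤ ‖phi R L (N y)‖ * 1 :=
            mul_le_mul_of_nonneg_left (hh1 y) (norm_nonneg _)
        _ ≤ δ / 2 * ZL L := by rw [mul_one]; exact hL0 L hL
  rw [Metric.tendsto_atTop] at hlim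
  obtain ⟨L0, hL0⟩ := hlim (1 / 8) (by norm_num)
  have h1 := hL0 (max L0 1) (le_max_left _ _)
  set L := max L0 1 with hLdef
  have hL1 : 1 ≤ L := le_max_right _ _
  have hpos := ZL_pos L hL1
  rw [dist_zero_right] at h1
  have e : ∫ y, phi R L (N y) * h y / (ZL L : ℂ) ∂ν =
      (∫ y, phi R L (N y) * h y ∂ν) / (ZL L : ℂ) := by
    simp only [div_eq_mul_inv]
    rw [integral_mul_const]
  rw [e, norm_div, Complex.norm_real, Real.norm_eq_abs, abs_of_nonneg (ZL_nonneg L),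
    div_lt_iff₀ hpos] at h1
  exact absurd h1 (not_lt.2 (hlow L))



lemma eval_aeval_mv {σ τ : Type} (f : σ → MvPolynomial τ ℝ) (p : MvPolynomial σ ℝ)
    (r : τ → ℝ) :
    MvPolynomial.eval r (MvPolynomial.aeval f p) =
      MvPolynomial.eval (fun i => MvPolynomial.eval r (f i)) p := by
  induction p using MvPolynomial.induction_on with
  | C a => simp
  | add p q hp hq => rw [map_add, map_add, hp, hq, map_add]
  | mul_X p i hp => rw [map_mul, map_mul, hp, MvPolynomial.aeval_X, map_mul, MvPolynomial.eval_X]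

/-- the restriction of a nilsequence to the diagonal -/
lemma isSeq_diag {ℓ : ℕ} {N : (Fin ℓ → ℤ) → ℂ} (h : IsBasicNil ℓ N) :
    IsSeq (fun m : ℕ => N (fun _ => (m : ℤ))) := by
  obtain ⟨d, G, F, g, hF, hN⟩ := h
  refine ⟨d, G, F, fun k => MvPolynomial.aeval (fun _ => (X : ℝ[X])) (g k), hF, fun m => ?_⟩
  show N (fun _ => (m : ℤ)) = _
  rw [hN]
  congr 1
  funext k
  rw [eval_aeval]
  simp

lemma mp_pow {Ω : Type} [MeasurableSpace Ω] {μ : Measure Ω} {S : Equiv.Perm Ω}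
    (h : MeasurePreserving S μ μ) (n : ℕ) : MeasurePreserving (⇑(S ^ n)) μ μ := by
  induction n with
  | zero => exact MeasurePreserving.id μ
  | succ n ih =>
    have : (⇑(S ^ (n + 1)) : Ω → Ω) = (⇑(S ^ n)) ∘ (⇑S) := by
      rw [pow_succ]; rfl
    rw [this]; exact ih.comp h

/-- The one-variable form: `∫ f · S^m f · S^{2m} f` has the prescribed correlations. -/
theorem system : ∃ (R : (L : ℕ) → (Fin L → Fin L → Bool) → ℕ) (Ω : Type)
    (_ : MeasurableSpace Ω) (μ : Measure Ω) (_ : IsProbabilityMeasure μ)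
    (S : Equiv.Perm Ω) (f : Ω → ℂ), MeasurePreserving S μ μ ∧ MeasurePreserving S.symm μ μ ∧
    Measurable f ∧ (∀ x, ‖f x‖ ≤ 1) ∧
    ∀ (L : ℕ) (p : Fin L → Fin L → Bool) (i j : Fin L),
      3 / 8 ≤ ((sg (p i j) : ℂ) * ∫ x, f x * f ((S ^ (qt (R L p) L i j)) x) *
        f ((S ^ (2 * qt (R L p) L i j)) x) ∂μ).re := by
  obtain ⟨R, W, hr, hc, hu, hW⟩ := Pool.Agent.U796.MC.t_ALLOC
  obtain ⟨Ω, mΩ, μ, hμ, S, f, hS1, hS2, hf, hf1, hint⟩ :=
    t_SYS Pool.Agent.U901.MC.t_DIG Pool.Agent.U2.MC.t_COC Pool.Agent.U395.MC.t_SKP W hr hc hu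
  refine ⟨R, Ω, mΩ, μ, hμ, S, f, hS1, hS2, hf, hf1, fun L p i j => ?_⟩
  have hlt : R L p + (i : ℕ) < R L p + L + (j : ℕ) := by have := i.2; omega
  have h0 := hint (R L p + i) (R L p + L + j) hlt
  rw [hW L p i j] at h0
  have h2 := re_target (p i j)
  set w : ℂ := om (2 * (if p i j then 1 else 0)) with hw
  unfold qt
  set C := ∫ x, f x * f ((S ^ (nn (R L p + i) (R L p + L + j))) x) *
        f ((S ^ (2 * nn (R L p + i) (R L p + L + j))) x) ∂μ with hCd
  have h3 : ‖(sg (p i j) : ℂ) * C - (sg (p i j) : ℂ) * w‖ ≤ 1 / 8 := by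
    rw [← mul_sub, norm_mul, norm_sg, one_mul]; exact h0
  have h4 := Complex.abs_re_le_norm ((sg (p i j) : ℂ) * C - (sg (p i j) : ℂ) * w)
  rw [Complex.sub_re] at h4
  have h5 := abs_le.1 (h4.trans h3)
  linarith [h5.1]

theorem main (ℓ : ℕ) (hℓ : 2 ≤ ℓ) :
    ∃ (Ω : Type) (_ : MeasurableSpace Ω) (μ : Measure Ω) (_ : IsProbabilityMeasure μ)
      (T : Fin ℓ → Equiv.Perm Ω) (f : Fin (ℓ + 1) → Ω → ℂ),
      (∀ i, MeasurePreserving (T i) μ μ) ∧ (∀ i, MeasurePreserving (T i).symm μ μ) ∧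
      (∀ i j, T i * T j = T j * T i) ∧
      (∀ i, Measurable (f i)) ∧ (∀ i x, ‖f i x‖ ≤ 1) ∧
      ¬ Representable ℓ (1 / 4) (corr μ T f) := by
  obtain ⟨k, rfl⟩ : ∃ k, ℓ = k + 1 + 1 := ⟨ℓ - 2, by omega⟩
  obtain ⟨R, Ω, mΩ, μ, hμ, S, f, hS1, hS2, hf, hf1, hval⟩ := system
  have hinv : ∀ n : ℕ, MeasurePreserving (⇑((S ^ n).symm)) μ μ := by
    intro n
    have : (S ^ n).symm = S.symm ^ n := by
      show (S ^ n)⁻¹ = (S⁻¹) ^ n
      exact (inv_pow S n).symm
    rw [this]; exact mp_pow hS2 n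
  refine ⟨Ω, mΩ, μ, hμ, Fin.cons S (Fin.cons (S ^ 2) (fun _ => 1)),
    Fin.cons f (Fin.cons f (Fin.cons f (fun _ _ => 1))), ?_, ?_, ?_, ?_, ?_, ?_⟩
  · intro i
    refine Fin.cases ?_ (fun i => ?_) i
    · exact hS1
    · refine Fin.cases ?_ (fun i => ?_) i
      · exact mp_pow hS1 2
      · exact MeasurePreserving.id μ
  · intro i
    refine Fin.cases ?_ (fun i => ?_) i
    · exact hS2
    · refine Fin.cases ?_ (fun i => ?_) i
      · exact hinv 2
      · exact MeasurePreserving.id μ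
  · have hc : ∀ i : Fin (k + 1 + 1), ∃ e : ℕ,
        (Fin.cons S (Fin.cons (S ^ 2) (fun _ => 1)) : Fin (k + 1 + 1) → Equiv.Perm Ω) i
          = S ^ e := by
      intro i
      refine Fin.cases ⟨1, by simp⟩ (fun i => ?_) i
      refine Fin.cases ⟨2, by simp⟩ (fun i => ⟨0, by simp⟩) i
    intro i j
    obtain ⟨a, ha⟩ := hc i
    obtain ⟨b, hb⟩ := hc j
    rw [ha, hb, ← pow_add, ← pow_add, add_comm]
  · intro i
    refine Fin.cases hf (fun i => ?_) i
    refine Fin.cases hf (fun i => ?_) i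
    refine Fin.cases hf (fun i => ?_) i
    exact measurable_const
  · intro i
    refine Fin.cases hf1 (fun i => ?_) i
    refine Fin.cases hf1 (fun i => ?_) i
    refine Fin.cases hf1 (fun i x => ?_) i
    simp
  · rintro ⟨Y, mY, ν, hν, h, g, N, hh, hh1, hg, hN, hNm, hNg, happ⟩
    refine no_rep R (fun m => ∫ x, f x * f ((S ^ m) x) * f ((S ^ (2 * m)) x) ∂μ) hval ν h g (fun y m => N y (fun _ => (m : ℤ))) hh hh1 hg ?_
      (fun n => hNm _) (fun y n => hNg y _) fun m => ?_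
    · intro y ε hε
      obtain ⟨N', hN', hNN⟩ := hN y ε hε
      exact ⟨_, isSeq_diag hN', fun n => hNN _⟩
    · have e := happ (fun _ => (m : ℤ))
      have e1 : corr μ (Fin.cons S (Fin.cons (S ^ 2) (fun _ => 1)) :
          Fin (k + 1 + 1) → Equiv.Perm Ω)
          (Fin.cons f (Fin.cons f (Fin.cons f (fun _ _ => 1)))) (fun _ => (m : ℤ)) =
          ∫ x, f x * f ((S ^ m) x) * f ((S ^ (2 * m)) x) ∂μ := by
        unfold corr
        refine integral_congr_ae (Eventually.of_forall fun x => ?_)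
        simp only [Fin.prod_univ_succ, Fin.cons_zero, Fin.cons_succ, Finset.prod_const_one,
          mul_one, zpow_natCast, ← pow_mul]
        ring
      rw [e1] at e
      exact e

end Pool.Agent.U50.MC2
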