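import Pool.Agent.U50.MC.Poly
import Pool.Agent.U796.MC.HOM

/-!
# Project MC (MP_b4ed41_an): the sequences `F (b_1 ^ n_1 ⋯ b_ℓ ^ n_ℓ a Γ)` are basic nilsequences
in the sense of `Stm2.lean`; two examples of nilmanifolds (tori, the Heisenberg nilmanifold).
-/

set_option autoImplicit false

namespace Pool.Agent.U50.MC2

open Polynomial Pool.Agent.U50.MC Pool.Agent.U894.MC

/-- Powers of an element are polynomial in the integral exponent. -/
theorem pow_int {d : ℕ} (G : Nil d) (β : ℤ → (Fin d → ℝ)) (hβ : G.IsPow β) :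
    ∃ q : Fin d → ℝ[X], ∀ (n : ℤ) (k : Fin d), β n k = (q k).eval (n : ℝ) := by
  obtain ⟨q, hq⟩ := Pool.Agent.U796.MC.t_HOM d G β hβ
  refine ⟨q, fun n k => ?_⟩
  obtain ⟨m, rfl | rfl⟩ := n.eq_nat_or_neg
  · exact_mod_cast hq m k
  · set r : Fin d → ℝ[X] := opP G q (fun k => C (β (-(m : ℤ)) k)) with hr
    have h1 : ∀ (n : ℕ) (k : Fin d), (r k).eval (n : ℝ) = β ((n : ℤ) + -(m : ℤ)) k := by
      intro n k
      have e := congrFun (eval_opP G q (fun k => C (β (-(m : ℤ)) k)) (n : ℝ)) k
      rw [hβ]
      have e1 : (fun k => (q k).eval (n : ℝ)) = β (n : ℤ) := funext fun k => (hq n k).symm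
      have e2 : (fun k => (C (β (-(m : ℤ)) k)).eval (n : ℝ)) = β (-(m : ℤ)) := by
        funext k; simp
      rw [e1, e2] at e
      exact e
    have h2 : r k = (q k).comp (X - C (m : ℝ)) := by
      apply Polynomial.eq_of_infinite_eval_eq
      refine Set.Infinite.mono ?_ (Set.infinite_range_of_injective
        (f := fun n : ℕ => ((n + m : ℕ) : ℝ)) ?_)
      · rintro _ ⟨n, rfl⟩
        show (r k).eval ((n + m : ℕ) : ℝ) = ((q k).comp (X - C (m : ℝ))).eval ((n + m : ℕ) : ℝ)
        rw [h1, eval_comp]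
        have e3 : (((n + m : ℕ) : ℤ) + -(m : ℤ)) = (n : ℤ) := by push_cast; ring
        rw [e3, hq]
        congr 1
        simp
      · intro a b hab
        have h : ((a + m : ℕ) : ℝ) = ((b + m : ℕ) : ℝ) := hab
        have h' : a + m = b + m := Nat.cast_injective h
        omega
    have h3 := h1 0 k
    rw [h2, eval_comp] at h3
    simp only [Nat.cast_zero, eval_sub, eval_X, eval_C, zero_sub, zero_add] at h3
    rw [← h3]
    push_cast
    rfl

/-- The product of two polynomial vectors in several variables. -/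
noncomputable def opM {d : ℕ} {τ : Type} (G : Nil d) (x y : Fin d → MvPolynomial τ ℝ) :
    Fin d → MvPolynomial τ ℝ :=
  fun k => x k + y k + MvPolynomial.aeval (Sum.elim x y) (G.P k)

theorem eval_opM {d : ℕ} {τ : Type} (G : Nil d) (x y : Fin d → MvPolynomial τ ℝ) (r : τ → ℝ) :
    (fun k => MvPolynomial.eval r (opM G x y k)) =
      G.op (fun k => MvPolynomial.eval r (x k)) (fun k => MvPolynomial.eval r (y k)) := by
  funext k
  unfold opM Nil.op rawOp
  rw [map_add, map_add, eval_aeval_mv]
  have h : (fun i => MvPolynomial.eval r (Sum.elim x y i)) =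
      Sum.elim (fun k => MvPolynomial.eval r (x k)) (fun k => MvPolynomial.eval r (y k)) := by
    funext i
    cases i <;> rfl
  rw [h]

/-- The sequences `F (b_1 ^ n_1 ⋯ b_ℓ ^ n_ℓ a Γ)` (`β t n = b_t ^ n`) are basic nilsequences. -/
theorem isBasicNil_of_pow {ℓ d : ℕ} (G : Nil d) (F : (Fin d → ℝ) → ℂ) (hF : G.IsFun F)
    (β : Fin ℓ → ℤ → (Fin d → ℝ)) (hβ : ∀ t, G.IsPow (β t)) (a : Fin d → ℝ) :
    IsBasicNil ℓ (fun n => F ((List.ofFn fun t => β t (n t)).foldr G.op a)) := by
  have key : ∀ l : List (Fin ℓ), ∃ g : Fin d → MvPolynomial (Fin ℓ) ℝ, ∀ n : Fin ℓ → ℤ,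
      (fun k => MvPolynomial.eval (fun i => (n i : ℝ)) (g k)) =
        (l.map fun t => β t (n t)).foldr G.op a := by
    intro l
    induction l with
    | nil => exact ⟨fun k => MvPolynomial.C (a k), fun n => by funext k; simp⟩
    | cons t l ih =>
      obtain ⟨g, hg⟩ := ih
      obtain ⟨q, hq⟩ := pow_int G (β t) (hβ t)
      refine ⟨opM G (fun k => Polynomial.aeval (MvPolynomial.X t) (q k)) g, fun n => ?_⟩
      rw [eval_opM, hg n, List.map_cons, List.foldr_cons]
      congr 1
      funext k
      rw [hq (n t) k]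
      generalize q k = p
      induction p using Polynomial.induction_on' with
      | add p q hp hq => rw [map_add, map_add, hp, hq, eval_add]
      | monomial m c => simp [Polynomial.aeval_monomial]
  obtain ⟨g, hg⟩ := key (List.finRange ℓ)
  refine ⟨d, G, F, g, hF, fun n => ?_⟩
  rw [hg n]
  simp only [List.ofFn_eq_map]

/-- Example: the torus `ℝ^d / ℤ^d`. -/
noncomputable def torus (d : ℕ) : Nil d where
  P := fun _ => 0
  tri := by intro i v hv; simp at hv
  assoc := by intro x y z; funext i; simp [rawOp]; ring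
  zero_op := by intro x; funext i; simp [rawOp]
  op_zero := by intro x; funext i; simp [rawOp]
  int_op := by
    intro m n
    exact ⟨fun i => m i + n i, by funext i; simp [rawOp]⟩

/-- Example: the Heisenberg nilmanifold, `(x * y)_2 = x_2 + y_2 + x_0 y_1`. -/
noncomputable def heisenberg : Nil 3 where
  P := ![0, 0, MvPolynomial.X (Sum.inl 0) * MvPolynomial.X (Sum.inr 1)]
  tri := by
    intro i v hv
    fin_cases i
    · simp at hv
    · simp at hv
    · have h := MvPolynomial.vars_mul _ _ hv
      rw [Finset.mem_union, MvPolynomial.vars_X, MvPolynomial.vars_X] at h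
      rcases h with h | h
      · exact ⟨0, by decide, Or.inl (by simpa using h)⟩
      · exact ⟨1, by decide, Or.inr (by simpa using h)⟩
  assoc := by
    intro x y z; funext i
    fin_cases i <;> simp [rawOp] <;> ring
  zero_op := by intro x; funext i; fin_cases i <;> simp [rawOp]
  op_zero := by intro x; funext i; fin_cases i <;> simp [rawOp]
  int_op := by
    intro m n
    refine ⟨![m 0 + n 0, m 1 + n 1, m 2 + n 2 + m 0 * n 1], ?_⟩
    funext i; fin_cases i <;> simp [rawOp]

end Pool.Agent.U50.MC2
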